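import Pool.Agent.Y345.Three

/-!
Steiner systems `S(n,6,2)` for `n = 646, 771, 801`.
-/

namespace Pool.Agent.Results.MP_409a13_co.BlockSixRest

/-- There is a Steiner system `S(n,6,2)` for `n = 646, 771, 801`. -/
theorem result : ∀ n ∈ ([646, 771, 801] : List ℕ),
    ∃ B : Finset (Finset (Fin n)), (∀ b ∈ B, b.card = 6) ∧
      ∀ T : Finset (Fin n), T.card = 2 → ∃! b, b ∈ B ∧ T ⊆ b := by
  intro n hn
  simp only [List.mem_cons, List.not_mem_nil, or_false] at hn
  rcases hn with rfl | rfl | rfl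
  · exact Pool.Agent.Y345.steiner_of_sd (by norm_num) Pool.Agent.Y345.s646
  · exact Pool.Agent.Y345.steiner_of_sd (by norm_num) Pool.Agent.Y345.s771
  · exact Pool.Agent.Y345.steiner_of_sd (by norm_num) Pool.Agent.Y345.s801

end Pool.Agent.Results.MP_409a13_co.BlockSixRest
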