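import Pool.Agent.Y345.Seven
import Pool.Agent.Y345.EightB
import Pool.Agent.Y345.EightC
import Pool.Agent.Y345.Nine

/-!
Steiner systems `S(n,7,2)` for `n = 715, 805`, `S(n,8,2)` for `n = 1233, 1240, 1401, 1408, 1457`
and `S(2737,9,2)`.
-/

namespace Pool.Agent.Results.MP_409a13_co.BlocksSevenEightNine

/-- For each pair `(n, q)` in the list there is a Steiner system `S(n,q,2)`. -/
theorem result : ∀ p ∈ ([(715, 7), (805, 7), (1233, 8), (1240, 8), (1401, 8), (1408, 8),
      (1457, 8), (2737, 9)] : List (ℕ × ℕ)),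
    ∃ B : Finset (Finset (Fin p.1)), (∀ b ∈ B, b.card = p.2) ∧
      ∀ T : Finset (Fin p.1), T.card = 2 → ∃! b, b ∈ B ∧ T ⊆ b := by
  intro p hp
  simp only [List.mem_cons, List.not_mem_nil, or_false] at hp
  rcases hp with rfl | rfl | rfl | rfl | rfl | rfl | rfl | rfl
  · exact Pool.Agent.Y345.steiner_of_sd (by norm_num) Pool.Agent.Y345.s715
  · exact Pool.Agent.Y345.steiner_of_sd (by norm_num) Pool.Agent.Y345.s805
  · exact Pool.Agent.Y345.steiner_of_sd (by norm_num) Pool.Agent.Y345.s1233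
  · exact Pool.Agent.Y345.steiner_of_sd (by norm_num) Pool.Agent.Y345.s1240
  · exact Pool.Agent.Y345.steiner_of_sd (by norm_num) Pool.Agent.Y345.s1401
  · exact Pool.Agent.Y345.steiner_of_sd (by norm_num) Pool.Agent.Y345.s1408
  · exact Pool.Agent.Y345.steiner_of_sd (by norm_num) Pool.Agent.Y345.s1457
  · exact Pool.Agent.Y345.steiner_of_sd (by norm_num) Pool.Agent.Y345.s2737

end Pool.Agent.Results.MP_409a13_co.BlocksSevenEightNine
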